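import Mathlib

set_option autoImplicit false

namespace Pool.Agent.H.MP_d722ac_gt

open MeasureTheory Set

/-- a hexagon -/
def Hex (t r : ℝ) : Set (ℝ × ℝ) := {p | |p.1 - t| ≤ r ∧ |p.2 - t| ≤ r ∧ |p.1 + p.2 - t| ≤ r}

theorem int_abs {t r : ℝ} (h : |t| ≤ r) : ∫ x in (t - r)..(t + r), (2 * r - |x|) = 3 * r ^ 2 - t ^ 2 := by
  rw [abs_le] at h
  have c : Continuous fun x : ℝ => 2 * r - |x| := by fun_prop
  rw [← intervalIntegral.integral_add_adjacent_intervals (b := 0) (c.intervalIntegrable _ _)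
    (c.intervalIntegrable _ _),
    intervalIntegral.integral_congr (g := fun x => 2 * r + x) (fun x hx => by
      rw [uIcc_of_le (by linarith)] at hx
      simp [abs_of_nonpos hx.2]),
    intervalIntegral.integral_congr (a := 0) (g := fun x => 2 * r - x) (fun x hx => by
      rw [uIcc_of_le (by linarith)] at hx
      simp [abs_of_nonneg hx.1]),
    intervalIntegral.integral_add (by simp) (by simp),
    intervalIntegral.integral_sub (by simp) (by simp)]
  simp
  ring

theorem vol_hex {t r : ℝ} (h : |t| ≤ r) : volume (Hex t r) = ENNReal.ofReal (3 * r ^ 2 - t ^ 2) := by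
  have hm : MeasurableSet (Hex t r) := by unfold Hex; measurability
  have e : ∀ x, volume (Prod.mk x ⁻¹' Hex t r) =
      (Ioc (t - r) (t + r)).indicator (fun x => ENNReal.ofReal (2 * r - |x|)) x ∨ x = t - r := by
    intro x
    by_cases hx : x ∈ Ioc (t - r) (t + r)
    · left
      have : Prod.mk x ⁻¹' Hex t r = Icc (max (t - r) (t - r - x)) (min (t + r) (t + r - x)) := by
        ext y
        simp only [Hex, mem_preimage, mem_ofPred_eq, abs_le, mem_Icc, max_le_iff, le_min_iff]
        constructor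
        · rintro ⟨_, ⟨_, _⟩, _, _⟩; refine ⟨⟨?_, ?_⟩, ?_, ?_⟩ <;> linarith
        · rintro ⟨⟨_, _⟩, _, _⟩
          refine ⟨⟨?_, ?_⟩, ⟨?_, ?_⟩, ?_, ?_⟩ <;> linarith [hx.1, hx.2]
      rw [this, Real.volume_Icc, indicator_of_mem hx]
      congr 1
      rcases le_total 0 x with h0 | h0
      · rw [abs_of_nonneg h0, max_eq_left (by linarith), min_eq_right (by linarith)]; ring
      · rw [abs_of_nonpos h0, max_eq_right (by linarith), min_eq_left (by linarith)]; ring
    · rw [or_iff_not_imp_right]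
      intro hne
      rw [indicator_of_notMem hx, eq_empty_of_forall_notMem (s := Prod.mk x ⁻¹' Hex t r)
        fun y hy => hx ?_, measure_empty]
      have := abs_le.1 hy.1
      exact ⟨lt_of_le_of_ne (by linarith) (Ne.symm hne), by linarith⟩
  rw [Measure.volume_eq_prod, Measure.prod_apply hm,
    lintegral_congr_ae (g := (Ioc (t - r) (t + r)).indicator fun x => ENNReal.ofReal (2 * r - |x|))
      (by filter_upwards [Measure.ae_ne volume (t - r)] with x hx using (e x).resolve_right hx),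
    lintegral_indicator measurableSet_Ioc, ← int_abs h,
    intervalIntegral.integral_of_le (by linarith [abs_nonneg t]), ofReal_integral_eq_lintegral_ofReal]
  · exact (Continuous.integrableOn_Icc (by fun_prop)).mono_set Ioc_subset_Icc_self
  · filter_upwards [ae_restrict_mem measurableSet_Ioc] with x hx
    rw [abs_le] at h
    have : |x| ≤ 2 * r := abs_le.2 ⟨by linarith [hx.1], by linarith [hx.2]⟩
    simpa using this

theorem hex_center {s x y r : ℝ} (hs : |s| ≤ r) (h : (x, y) ∈ Hex 0 r) :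
    ∃ p q : ℝ, |p - s| + |x| ≤ r ∧ |q - s| + |y| ≤ r ∧ |p + q - s| + |x + y| ≤ r := by
  simp only [Hex, mem_ofPred_eq, sub_zero] at h
  obtain ⟨h1, h2, h3⟩ := h
  have hD : r ≤ (r - |x|) + (r - |y|) + (r - |x + y|) := by
    rcases abs_cases x with a | a <;> rcases abs_cases y with b | b <;>
      rcases abs_cases (x + y) with c | c <;> linarith [a.1, a.2, b.1, b.2, c.1, c.2]
  obtain ⟨l, hl, e⟩ : ∃ l : ℝ, |l| ≤ 1 ∧ s = l * ((r - |x|) + (r - |y|) + (r - |x + y|)) := by
    by_cases h0 : (r - |x|) + (r - |y|) + (r - |x + y|) = 0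
    · exact ⟨0, by simp, by simpa using abs_nonpos_iff.1 (by linarith)⟩
    · refine ⟨_, ?_, (div_mul_cancel₀ s h0).symm⟩
      rw [abs_div, abs_of_nonneg (a := _ + _) (by linarith)]
      exact div_le_one_of_le₀ (by linarith) (by linarith)
  have k : ∀ a : ℝ, 0 ≤ a → |l * a| ≤ a := fun a ha => by
    rw [abs_mul, abs_of_nonneg ha]; nlinarith
  refine ⟨s - l * (r - |x|), s - l * (r - |y|), ?_, ?_, ?_⟩
  · rw [sub_sub_cancel_left, abs_neg]; linarith [k (r - |x|) (by linarith)]
  · rw [sub_sub_cancel_left, abs_neg]; linarith [k (r - |y|) (by linarith)]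
  · rw [show s - l * (r - |x|) + (s - l * (r - |y|)) - s = l * (r - |x + y|) by linarith]
    linarith [k (r - |x + y|) (by linarith)]

variable {m : ℕ}

/-- first block of coordinates -/
def ia (i : Fin m) : Fin (m + m + 1) := (Fin.castAdd m i).succ

/-- second block of coordinates -/
def ib (i : Fin m) : Fin (m + m + 1) := (Fin.natAdd m i).succ

/-- regrouping of the coordinates -/
def φ (z : EuclideanSpace ℝ (Fin (m + m + 1))) : ℝ × (Fin m → ℝ × ℝ) :=
  (z 0, fun i => (z (ia i), z (ib i)))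

theorem φ_pres : MeasurePreserving (φ (m := m)) := by
  have h1 := (volume_measurePreserving_piCongrLeft (fun _ : Fin (m + m) => ℝ) finSumFinEquiv).symm
  have h2 := volume_measurePreserving_sumPiEquivProdPi (fun _ : Fin m ⊕ Fin m => ℝ)
  have h3 := (volume_measurePreserving_arrowProdEquivProdArrow ℝ ℝ (Fin m)).symm
  have h4 := ((MeasurePreserving.id (volume : Measure ℝ)).prod (h3.comp (h2.comp h1))).comp
    ((volume_preserving_piFinSuccAbove (fun _ : Fin (m + m + 1) => ℝ) 0).comp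
      (PiLp.volume_preserving_ofLp (Fin (m + m + 1))))
  exact h4

/-- fibre product of hexagons -/
def T (m : ℕ) (ρ r κ : ℝ) : Set (EuclideanSpace ℝ (Fin (m + m + 1))) :=
  {z | |z 0| ≤ ρ ∧ ∀ i, (z (ia i), z (ib i)) ∈ Hex (κ * z 0) r}

theorem vol_T {ρ r κ : ℝ} (h : ∀ s, |s| ≤ ρ → |κ * s| ≤ r) : volume (T m ρ r κ) =
    ∫⁻ s in Icc (-ρ) ρ, ENNReal.ofReal (3 * r ^ 2 - (κ * s) ^ 2) ^ m := by
  let S : Set (ℝ × (Fin m → ℝ × ℝ)) := {z | |z.1| ≤ ρ ∧ ∀ i, z.2 i ∈ Hex (κ * z.1) r}
  have hm : MeasurableSet S := by unfold S Hex; measurability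
  rw [show T m ρ r κ = φ ⁻¹' S from rfl, φ_pres.measure_preimage hm.nullMeasurableSet,
    Measure.volume_eq_prod, Measure.prod_apply hm, ← lintegral_indicator measurableSet_Icc]
  refine lintegral_congr fun s => ?_
  by_cases hs : |s| ≤ ρ
  · rw [indicator_of_mem (show s ∈ Icc (-ρ) ρ from abs_le.1 hs),
      show Prod.mk s ⁻¹' S = univ.pi fun _ => Hex (κ * s) r by ext w; simp [S, hs],
      volume_pi_pi, vol_hex (h s hs)]
    simp
  · rw [indicator_of_notMem (show s ∉ Icc (-ρ) ρ from fun h => hs (abs_le.2 h)),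
      show Prod.mk s ⁻¹' S = ∅ by ext w; simp [S, hs], measure_empty]

theorem vol_L {ε θ : ℝ} (hε : 0 ≤ ε) (hθ : 0 ≤ θ) : volume (T m 1 ε ε) ≤
    ENNReal.ofReal (2 * θ) * ENNReal.ofReal (3 * ε ^ 2) ^ m +
      2 * ENNReal.ofReal (3 * ε ^ 2 * (1 - θ ^ 2 / 3)) ^ m := by
  rw [vol_T fun s hs => by rw [abs_mul, abs_of_nonneg hε]; nlinarith]
  calc _ ≤ ∫⁻ s in Icc (-1 : ℝ) 1, ((Icc (-θ) θ).indicator
          (fun _ => ENNReal.ofReal (3 * ε ^ 2) ^ m) s +
          ENNReal.ofReal (3 * ε ^ 2 * (1 - θ ^ 2 / 3)) ^ m) := by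
        refine lintegral_mono fun s => ?_
        by_cases hs : s ∈ Icc (-θ) θ
        · rw [indicator_of_mem hs]
          exact le_add_right (by gcongr; nlinarith [sq_nonneg (ε * s)])
        · have : θ ^ 2 ≤ s ^ 2 := by
            rw [← sq_abs s]
            exact pow_le_pow_left₀ hθ (le_of_not_ge fun h => hs (abs_le.1 h)) 2
          exact le_add_left (by gcongr; nlinarith [sq_nonneg ε])
    _ ≤ _ := by
        rw [lintegral_add_right _ measurable_const, setLIntegral_const, Real.volume_Icc,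
          show ENNReal.ofReal (1 - -1) = 2 by norm_num, mul_comm _ (2 : ENNReal)]
        gcongr
        refine (setLIntegral_le_lintegral _ _).trans ?_
        rw [lintegral_indicator measurableSet_Icc, setLIntegral_const, Real.volume_Icc, mul_comm,
          show θ - -θ = 2 * θ by ring]

theorem vol_C {ε ρ : ℝ} (hε : 0 ≤ ε) (hρ : 0 ≤ ρ) (h : 1 ≤ 2 * ρ ^ (m + m + 1)) :
    ENNReal.ofReal (3 * ε ^ 2) ^ m ≤ volume (T m ρ (ρ * ε) 0) := by
  rw [vol_T fun s _ => by simp; positivity]
  simp only [zero_mul, ne_eq, OfNat.ofNat_ne_zero, not_false_eq_true, zero_pow, sub_zero]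
  rw [setLIntegral_const, Real.volume_Icc, ← ENNReal.ofReal_pow (by positivity),
    ← ENNReal.ofReal_pow (by positivity), ← ENNReal.ofReal_mul (by positivity)]
  refine ENNReal.ofReal_le_ofReal ?_
  rw [show (3 * (ρ * ε) ^ 2) ^ m * (ρ - -ρ) = (3 * ε ^ 2) ^ m * (2 * ρ ^ (m + m + 1)) by ring]
  exact le_mul_of_one_le_right (by positivity) h

end Pool.Agent.H.MP_d722ac_gt
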