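import Pool.Agent.H.MP_d722ac_gt.A

set_option autoImplicit false

namespace Pool.Agent.H.MP_d722ac_gt

open MeasureTheory Set

theorem steiner {E : Type} [NormedAddCommGroup E] [InnerProductSpace ℝ E] (K : Set E) {u c v : E}
    (hv : inner ℝ u v = 0) (h1 : ∀ x ∈ K, inner ℝ x (c + v) ≤ 1)
    (h2 : ∀ x ∈ K, inner ℝ x (v - c) ≤ 1) (w : E)
    (hw1 : ∃ s : ℝ, w - (inner ℝ w u) • u + s • u ∈ K)
    (hw2 : ENNReal.ofReal (2 * |inner ℝ w u|) ≤
      volume {s : ℝ | w - (inner ℝ w u) • u + s • u ∈ K}) :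
    inner ℝ w (v + (inner ℝ u c) • u) ≤ 1 := by
  set t := inner ℝ w u with ht
  set σ := inner ℝ u c with hσ
  have key : ∀ s : ℝ, w - t • u + s • u ∈ K →
      |inner ℝ w c - t * σ + s * σ| ≤ 1 - inner ℝ w v := fun s hs => by
    have a := h1 _ hs
    have b := h2 _ hs
    simp only [inner_add_left, inner_sub_left, inner_add_right, inner_sub_right,
      real_inner_smul_left, hv, ← hσ] at a b
    rw [abs_le]
    constructor <;> linarith
  obtain ⟨s, hs⟩ := hw1
  have hρ : 0 ≤ 1 - inner ℝ w v := (abs_nonneg _).trans (key s hs)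
  rw [inner_add_right, real_inner_smul_right, ← ht]
  by_cases h0 : σ = 0
  · rw [h0]; linarith
  · have sub : {s : ℝ | w - t • u + s • u ∈ K} ⊆
        Metric.closedBall (-(inner ℝ w c - t * σ) / σ) ((1 - inner ℝ w v) / |σ|) := fun s hs => by
      rw [Metric.mem_closedBall, Real.dist_eq, le_div_iff₀ (abs_pos.2 h0), ← abs_mul]
      rw [show (s - -(inner ℝ w c - t * σ) / σ) * σ = inner ℝ w c - t * σ + s * σ by
        rw [sub_mul, div_mul_cancel₀ _ h0]; ring]
      exact key s hs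
    have := hw2.trans (measure_mono sub)
    rw [Real.volume_closedBall, ENNReal.ofReal_le_ofReal_iff (by positivity)] at this
    have h3 : |t| ≤ (1 - inner ℝ w v) / |σ| := by linarith
    rw [le_div_iff₀ (abs_pos.2 h0), ← abs_mul] at h3
    linarith [le_abs_self (t * σ)]

variable {m : ℕ}

theorem inner_eq (x y : EuclideanSpace ℝ (Fin (m + m + 1))) :
    inner ℝ x y = x 0 * y 0 + ∑ i, (x (ia i) * y (ia i) + x (ib i) * y (ib i)) := by
  simp only [PiLp.inner_apply, Fin.sum_univ_succ, Fin.sum_univ_add, Finset.sum_add_distrib, ia, ib,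
    RCLike.inner_apply, conj_trivial, mul_comm]

theorem sum_bd {u : EuclideanSpace ℝ (Fin (m + m + 1))} (hu : ‖u‖ = 1) {p q : Fin m → ℝ} {B : ℝ}
    (hp : ∀ i, |p i| ≤ B) (hq : ∀ i, |q i| ≤ B) :
    |∑ i, (u (ia i) * p i + u (ib i) * q i)| ≤ 2 * m * B := by
  have h : ∀ j (x : ℝ), |x| ≤ B → |u j * x| ≤ B := fun j x hx => by
    have : |u j| ≤ 1 := hu ▸ PiLp.norm_apply_le u j
    rw [abs_mul]
    nlinarith [abs_nonneg x, abs_nonneg (u j)]
  refine (Finset.abs_sum_le_sum_abs _ _).trans ((Finset.sum_le_card_nsmul _ _ (2 * B) fun i _ =>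
    (abs_add_le _ _).trans (by linarith [h (ia i) _ (hp i), h (ib i) _ (hq i)])).trans ?_)
  simp only [Finset.card_univ, Fintype.card_fin, nsmul_eq_mul]
  linarith

theorem split {u z : EuclideanSpace ℝ (Fin (m + m + 1))} (hu : ‖u‖ = 1) {η δ ε : ℝ} (hη : 0 < η)
    (hu0 : η ≤ |u 0|) (hε : 0 ≤ ε) (hδ : 0 ≤ δ) (h8 : 8 * m * ε ≤ δ * η)
    (hz : z + inner ℝ u z • ((u 0)⁻¹ • EuclideanSpace.single 0 1 - u) ∈
      T m (1 - δ) ((1 - δ) * ε) 0) :
    ∃ c v, inner ℝ u v = 0 ∧ z = v + inner ℝ u c • u ∧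
      ∀ τ : ℝ, |τ| = 1 → c + τ • v ∈ T m 1 ε ε := by
  set σ := inner ℝ u z with hσ
  let v := z - σ • u
  have hv : inner ℝ u v = 0 := by
    simp [v, inner_sub_right, real_inner_smul_right, hu, hσ]
  have u0 : u 0 ≠ 0 := abs_pos.1 (hη.trans_le hu0)
  obtain ⟨s0, hs0⟩ : ∃ s0, s0 = v 0 + σ / u 0 := ⟨_, rfl⟩
  have h0 : |s0| ≤ 1 - δ := by
    convert hz.1 using 2
    simp [hs0, v]
    ring
  have h1 : ∀ i, (v (ia i), v (ib i)) ∈ Hex 0 ((1 - δ) * ε) := fun i => by
    convert hz.2 i using 2 <;> simp [v, ia, ib, sub_eq_add_neg]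
  have h2 : |ε * s0| ≤ (1 - δ) * ε := by rw [abs_mul, abs_of_nonneg hε]; nlinarith
  choose p q hp hq hpq using fun i => hex_center h2 (h1 i)
  have le : (1 - δ) * ε ≤ ε := by nlinarith
  have b1 := sum_bd hu (p := fun i => v (ia i)) (q := fun i => v (ib i)) (B := ε)
    (fun i => by linarith [hp i, abs_nonneg (p i - ε * s0)])
    (fun i => by linarith [hq i, abs_nonneg (q i - ε * s0)])
  have b2 := sum_bd hu (p := p) (q := q) (B := 2 * ε)
    (fun i => by linarith [hp i, abs_nonneg (v (ia i)), abs_sub_abs_le_abs_sub (p i) (ε * s0)])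
    (fun i => by linarith [hq i, abs_nonneg (v (ib i)), abs_sub_abs_le_abs_sub (q i) (ε * s0)])
  obtain ⟨S, hS⟩ : ∃ S, S = ∑ i, (u (ia i) * p i + u (ib i) * q i) := ⟨_, rfl⟩
  let c : EuclideanSpace ℝ (Fin (m + m + 1)) :=
    WithLp.toLp 2 (Fin.cons ((σ - S) / u 0) (Fin.append p q))
  have c0 : c 0 = (σ - S) / u 0 := rfl
  have ca : ∀ i, c (ia i) = p i := fun i => by simp [c, ia]
  have cb : ∀ i, c (ib i) = q i := fun i => Fin.append_right p q i
  have hc : inner ℝ u c = σ := by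
    rw [inner_eq]
    simp only [c0, ca, cb, ← hS]
    field_simp
    ring
  refine ⟨c, v, hv, by simp [hc, v], fun τ hτ => ?_⟩
  have b3 : |u 0 * v 0| ≤ 2 * m * ε := by
    rw [inner_eq] at hv
    rwa [eq_neg_of_add_eq_zero_left hv, abs_neg]
  have b4 : |c 0 + τ * v 0 - s0| ≤ δ := by
    have e : u 0 * (c 0 + τ * v 0 - s0) = τ * (u 0 * v 0) - (u 0 * v 0 + S) := by
      rw [c0, hs0]; field_simp; ring
    have : |u 0| * |c 0 + τ * v 0 - s0| ≤ δ * η := by
      rw [← abs_mul, e]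
      refine (abs_sub _ _).trans ?_
      rw [abs_mul τ, hτ]
      linarith [abs_add_le (u 0 * v 0) S, hS ▸ b2]
    by_contra hn
    nlinarith [not_le.1 hn]
  have b5 : ∀ a x : ℝ, |a - ε * s0| + |x| ≤ (1 - δ) * ε →
      |a + τ * x - ε * (c 0 + τ * v 0)| ≤ ε := fun a x h => by
    rw [show a + τ * x - ε * (c 0 + τ * v 0) =
      a - ε * s0 + τ * x - ε * (c 0 + τ * v 0 - s0) by ring]
    refine (abs_sub _ _).trans ?_
    have := abs_add_le (a - ε * s0) (τ * x)
    rw [abs_mul τ, hτ] at this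
    rw [abs_mul ε, abs_of_nonneg hε]
    nlinarith
  refine ⟨?_, fun i => ⟨?_, ?_, ?_⟩⟩
  · have := abs_sub_abs_le_abs_sub (c 0 + τ * v 0) s0
    simp only [PiLp.add_apply, PiLp.smul_apply, smul_eq_mul]
    linarith
  · simpa [ca] using b5 _ _ (hp i)
  · simpa [cb] using b5 _ _ (hq i)
  · convert b5 _ _ (hpq i) using 2
    simp only [PiLp.add_apply, PiLp.smul_apply, smul_eq_mul, ca, cb]
    ring

theorem T_neg {ε : ℝ} {z : EuclideanSpace ℝ (Fin (m + m + 1))} (h : z ∈ T m 1 ε ε) :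
    -z ∈ T m 1 ε ε := by
  refine ⟨by simpa using h.1, fun i => ⟨?_, ?_, ?_⟩⟩
  · rw [← abs_neg]; convert (h.2 i).1 using 2; simp; ring
  · rw [← abs_neg]; convert (h.2 i).2.1 using 2; simp; ring
  · rw [← abs_neg]; convert (h.2 i).2.2 using 2; simp; ring

theorem T_small {ε : ℝ} (h1 : ε ≤ 1) {z : EuclideanSpace ℝ (Fin (m + m + 1))}
    (h : ‖z‖ ≤ ε / 3) : z ∈ T m 1 ε ε := by
  have a : ∀ j, |z j| ≤ ε / 3 := fun j => (PiLp.norm_apply_le z j).trans h
  have h0 : 0 ≤ ε := by linarith [norm_nonneg z]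
  have b : |ε * z 0| ≤ ε / 3 := by
    rw [abs_mul, abs_of_nonneg h0]; nlinarith [a 0, abs_nonneg (z 0)]
  refine ⟨by linarith [a 0], fun i => ⟨?_, ?_, ?_⟩⟩ <;> refine (abs_sub _ _).trans ?_ <;>
    linarith [a (ia i), a (ib i), abs_add_le (z (ia i)) (z (ib i))]

/-- the polar of the fibre product -/
noncomputable def body (m : ℕ) {ε : ℝ} (h0 : 0 < ε) (h1 : ε ≤ 1) :
    ConvexBody (EuclideanSpace ℝ (Fin (m + m + 1))) where
  carrier := {x | ∀ z ∈ T m 1 ε ε, inner ℝ x z ≤ 1}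
  convex' := fun x hx y hy a b ha hb hab z hz => by
    rw [inner_add_left, real_inner_smul_left, real_inner_smul_left]
    nlinarith [hx z hz, hy z hz]
  isCompact' := by
    refine Metric.isCompact_of_isClosed_isBounded ?_
      ((Metric.isBounded_closedBall (x := 0) (r := 3 / ε)).subset fun x hx => ?_)
    · simp only [ofPred_forall]
      exact isClosed_iInter fun z => isClosed_iInter fun _ => isClosed_le (by fun_prop) (by fun_prop)
    · rw [mem_closedBall_zero_iff, le_div_iff₀ h0]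
      by_cases e : x = 0
      · simp [e]
      · have n : ‖x‖ ≠ 0 := norm_ne_zero_iff.2 e
        have := hx ((ε / 3 / ‖x‖) • x) (T_small h1 (by
          rw [norm_smul, Real.norm_of_nonneg (by positivity), div_mul_cancel₀ _ n]))
        rw [real_inner_smul_right, real_inner_self_eq_norm_sq] at this
        field_simp at this
        linarith
  nonempty' := ⟨0, fun z _ => by simp⟩

theorem body_int {ε : ℝ} (h0 : 0 < ε) (h1 : ε ≤ 1) :
    (interior (body m h0 h1 : Set (EuclideanSpace ℝ (Fin (m + m + 1))))).Nonempty := by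
  refine ⟨0, mem_interior_iff_mem_nhds.2 (Filter.mem_of_superset
    (Metric.closedBall_mem_nhds 0 (ε := 1 / (4 * m + 1)) (by positivity)) fun x hx z hz => ?_)⟩
  by_cases e : x = 0
  · simp [e]
  have n : 0 < ‖x‖ := norm_pos_iff.2 e
  have hu : ‖‖x‖⁻¹ • x‖ = 1 := norm_smul_inv_norm e
  have b : |ε * z 0| ≤ 1 := by
    rw [abs_mul, abs_of_pos h0]; nlinarith [hz.1, abs_nonneg (z 0)]
  have b1 := sum_bd hu (p := fun i => z (ia i)) (q := fun i => z (ib i)) (B := 2)
    (fun i => by linarith [(hz.2 i).1, abs_sub_abs_le_abs_sub (z (ia i)) (ε * z 0)])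
    (fun i => by linarith [(hz.2 i).2.1, abs_sub_abs_le_abs_sub (z (ib i)) (ε * z 0)])
  have b2 : |(‖x‖⁻¹ • x) 0 * z 0| ≤ 1 := by
    rw [abs_mul]
    exact mul_le_one₀ ((PiLp.norm_apply_le (‖x‖⁻¹ • x) 0).trans hu.le) (abs_nonneg _) hz.1
  have b3 : inner ℝ (‖x‖⁻¹ • x) z ≤ 4 * m + 1 := by
    rw [inner_eq]; linarith [le_abs_self _ |>.trans b1, le_abs_self _ |>.trans b2]
  rw [real_inner_smul_left, inv_mul_le_iff₀ n] at b3
  rw [mem_closedBall_zero_iff, le_div_iff₀ (by positivity)] at hx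
  linarith

theorem polar_sub {ε : ℝ} (h0 : 0 < ε) (h1 : ε ≤ 1) :
    {z | ∀ x ∈ body m h0 h1, inner ℝ x z ≤ (1 : ℝ)} ⊆ T m 1 ε ε := by
  intro z hz
  have key : ∀ (x : EuclideanSpace ℝ (Fin (m + m + 1))) (r : ℝ), 0 < r →
      (∀ y ∈ T m 1 ε ε, |inner ℝ x y| ≤ r) → |inner ℝ x z| ≤ r := fun x r hr h => by
    have k : ∀ τ : ℝ, |τ| = 1 → τ * inner ℝ x z ≤ r := fun τ hτ => by
      have := hz ((r⁻¹ * τ) • x) fun y hy => by
        rw [real_inner_smul_left, mul_assoc, inv_mul_le_iff₀ hr, mul_one]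
        exact (le_abs_self _).trans (by rw [abs_mul, hτ, one_mul]; exact h y hy)
      rwa [real_inner_smul_left, mul_assoc, inv_mul_le_iff₀ hr, mul_one] at this
    exact abs_le.2 ⟨by linarith [k (-1) (by simp)], by linarith [k 1 (by simp)]⟩
  have e : ∀ (j : Fin (m + m + 1)) (a : ℝ) (y : EuclideanSpace ℝ (Fin (m + m + 1))),
      inner ℝ (EuclideanSpace.single j a) y = a * y j := fun j a y => by
    simp [EuclideanSpace.inner_single_left]
  refine ⟨?_, fun i => ⟨?_, ?_, ?_⟩⟩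
  · simpa [e] using key (EuclideanSpace.single 0 1) 1 one_pos fun y hy => by simpa [e] using hy.1
  · have := key (EuclideanSpace.single (ia i) 1 - EuclideanSpace.single 0 ε) ε h0 fun y hy => by
      rw [inner_sub_left, e, e, one_mul]; exact (hy.2 i).1
    rwa [inner_sub_left, e, e, one_mul] at this
  · have := key (EuclideanSpace.single (ib i) 1 - EuclideanSpace.single 0 ε) ε h0 fun y hy => by
      rw [inner_sub_left, e, e, one_mul]; exact (hy.2 i).2.1
    rwa [inner_sub_left, e, e, one_mul] at this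
  · have := key (EuclideanSpace.single (ia i) 1 + EuclideanSpace.single (ib i) 1 -
      EuclideanSpace.single 0 ε) ε h0 fun y hy => by
      rw [inner_sub_left, inner_add_left, e, e, e, one_mul, one_mul]; exact (hy.2 i).2.2
    rwa [inner_sub_left, inner_add_left, e, e, e, one_mul, one_mul] at this

theorem slab (m : ℕ) : ∃ η : ℝ, 0 < η ∧ η ≤ 1 ∧
    volume (Metric.ball (0 : EuclideanSpace ℝ (Fin (m + m + 1))) 1) ≤
      2 * volume (Metric.ball (0 : EuclideanSpace ℝ (Fin (m + m + 1))) 1 ∩ {y | η ≤ |y 0|}) := by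
  set B := Metric.ball (0 : EuclideanSpace ℝ (Fin (m + m + 1))) 1
  have mono : Monotone fun k : ℕ => B ∩ {y | 1 / ((k : ℝ) + 1) ≤ |y 0|} := fun a b hab y hy =>
    ⟨hy.1, le_trans (α := ℝ) (Nat.one_div_le_one_div hab) hy.2⟩
  have lim := tendsto_measure_iUnion_atTop (μ := volume) mono
  have null : volume {y : EuclideanSpace ℝ (Fin (m + m + 1)) | y 0 = 0} = 0 :=
    Measure.addHaar_submodule volume
      (LinearMap.ker (EuclideanSpace.projₗ (𝕜 := ℝ) (0 : Fin (m + m + 1)))) fun h => by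
      simpa using h.ge (Submodule.mem_top (x := EuclideanSpace.single 0 (1 : ℝ)))
  have e : volume B ≤ volume (⋃ k : ℕ, B ∩ {y | 1 / ((k : ℝ) + 1) ≤ |y 0|}) := by
    rw [← measure_sdiff_null (s := B) null]
    refine measure_mono fun y hy => ?_
    obtain ⟨k, hk⟩ := exists_nat_one_div_lt (abs_pos.2 hy.2)
    exact mem_iUnion.2 ⟨k, hy.1, hk.le⟩
  have pos : volume B / 2 < volume B :=
    ENNReal.half_lt_self (Metric.measure_ball_pos _ _ one_pos).ne' measure_ball_lt_top.ne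
  obtain ⟨k, hk⟩ := (lim.eventually (lt_mem_nhds (pos.trans_le e))).exists
  refine ⟨1 / ((k : ℝ) + 1), by positivity, ?_, ?_⟩
  · rw [div_le_one (by positivity)]; linarith [k.cast_nonneg (α := ℝ)]
  · rw [mul_comm]
    exact (ENNReal.div_le_iff (by norm_num) (by norm_num)).1 hk.le

end Pool.Agent.H.MP_d722ac_gt
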